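import Pool.Agent.Q307.MAn.Lift

set_option autoImplicit false
set_option linter.all false

/-! The first uncountable ordinal. -/

open Topology Filter Set Cardinal

noncomputable section

namespace Pool.Agent.Q307.MAn

/-- the first uncountable ordinal -/
abbrev W : Type := (Cardinal.aleph 1).ord.ToType

instance : TopologicalSpace W := Preorder.topology W
instance : OrderTopology W := ⟨rfl⟩
instance : NoMaxOrder W := Cardinal.noMaxOrder (Cardinal.aleph0_le_aleph 1)

instance : Nonempty W := by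
  rw [← Cardinal.mk_ne_zero_iff, Cardinal.mk_toType, Cardinal.card_ord]
  exact (Cardinal.aleph_pos 1).ne'

theorem countable_Iio (a : W) : (Iio a).Countable := by
  have h : #(Iio a) < Cardinal.aleph 1 := Cardinal.mk_Iio_toType_ord_lt a
  rw [← Cardinal.le_aleph0_iff_set_countable]
  have h2 : Cardinal.aleph 1 = Order.succ ℵ₀ := by
    rw [← Cardinal.aleph_zero, ← Cardinal.aleph_succ]; simp
  exact Order.lt_succ_iff.1 (h.trans_eq h2)

theorem countable_Iic (a : W) : (Iic a).Countable := by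
  rw [← Iio_union_right]
  exact (countable_Iio a).union (countable_singleton a)

theorem bdd_of_countable {C : Set W} (hC : C.Countable) : ∃ b, ∀ c ∈ C, c < b := by
  by_contra hcon
  push Not at hcon
  have h1 : (univ : Set W) = ⋃ c ∈ C, Iic c := by
    ext x
    simp only [mem_univ, mem_iUnion, mem_Iic, true_iff]
    obtain ⟨c, hc, h⟩ := hcon x
    exact ⟨c, hc, h⟩
  have h2 : (univ : Set W).Countable := by
    rw [h1]; exact hC.biUnion fun c _ => countable_Iic c
  have h3 : #W ≤ ℵ₀ := by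
    rw [← Cardinal.mk_univ, Cardinal.le_aleph0_iff_set_countable]; exact h2
  rw [Cardinal.mk_toType, Cardinal.card_ord] at h3
  exact absurd h3 (not_le.2 Cardinal.aleph0_lt_aleph_one)

theorem isOpen_Iic' (a : W) : IsOpen (Iic a) := by
  have hne : (Ioi a).Nonempty := exists_gt a
  set b := (wellFounded_lt (α := W)).min (Ioi a) hne with hb
  have h1 : a < b := (wellFounded_lt (α := W)).min_mem (Ioi a) hne
  have h2 : Iic a = Iio b := by
    ext x
    constructor
    · intro h; exact lt_of_le_of_lt h h1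
    · intro h
      by_contra hcon
      exact (wellFounded_lt (α := W)).not_lt_min (Ioi a) (mem_Ioi.2 (lt_of_not_ge hcon)) h
  rw [h2]; exact isOpen_Iio

/-- suprema of increasing sequences -/
theorem exists_sup (u : ℕ → W) (hu : StrictMono u) :
    ∃ l, (∀ n, u n < l) ∧ ∀ b < l, ∃ n, b < u n := by
  obtain ⟨b, hb⟩ := bdd_of_countable (countable_range u)
  have hne : {b | ∀ n, u n < b}.Nonempty := ⟨b, fun n => hb _ ⟨n, rfl⟩⟩
  refine ⟨(wellFounded_lt (α := W)).min _ hne, (wellFounded_lt (α := W)).min_mem _ hne, ?_⟩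
  intro c hc
  by_contra hcon
  push Not at hcon
  apply (wellFounded_lt (α := W)).not_lt_min {b | ∀ n, u n < b} _ hc
  intro n
  exact lt_of_lt_of_le (hu (Nat.lt_succ_self n)) (hcon (n + 1))

/-- the countable family of open sets below `s` -/
def fam (s : W) : Set (Set W) :=
  (fun p : W × W => Ioc p.1 p.2) '' (Iic s ×ˢ Iic s) ∪ Iic '' Iic s

theorem fam_countable (s : W) : (fam s).Countable :=
  (((countable_Iic s).prod (countable_Iic s)).image _).union ((countable_Iic s).image _)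

theorem fam_nonempty (s : W) : (fam s).Nonempty := ⟨Iic s, Or.inr ⟨s, le_refl s, rfl⟩⟩

theorem fam_open (s : W) : ∀ C ∈ fam s, IsOpen C := by
  rintro _ (⟨p, _, rfl⟩ | ⟨a, _, rfl⟩)
  · show IsOpen (Ioc p.1 p.2)
    rw [← Ioi_inter_Iic]
    exact isOpen_Ioi.inter (isOpen_Iic' _)
  · exact isOpen_Iic' a

theorem fam_base {s x : W} (hx : x ≤ s) {O : Set W} (hO : IsOpen O) (hxO : x ∈ O) :
    ∃ C ∈ fam s, x ∈ C ∧ C ⊆ O := by
  by_cases h : ∃ l, l < x
  · obtain ⟨l, hl, hlO⟩ := exists_Ioc_subset_of_mem_nhds (hO.mem_nhds hxO) h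
    exact ⟨Ioc l x, Or.inl ⟨(l, x), ⟨hl.le.trans hx, hx⟩, rfl⟩, ⟨hl, le_refl x⟩, hlO⟩
  · refine ⟨Iic x, Or.inr ⟨x, hx, rfl⟩, le_refl x, ?_⟩
    intro y hy
    have : y = x := le_antisymm hy (not_lt.1 fun h' => h ⟨y, h'⟩)
    rw [this]; exact hxO

/-- enumeration of the family -/
def en (s : W) : ℕ → Set W := Classical.choose ((fam_countable s).exists_eq_range (fam_nonempty s))

theorem en_range (s : W) : fam s = range (en s) :=
  Classical.choose_spec ((fam_countable s).exists_eq_range (fam_nonempty s))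

/-- the neighbourhoods -/
def BW (n : ℕ) (s y : W) : Set W := ⋂ k ∈ {k | k ≤ n ∧ y ∈ en s k}, en s k

theorem loc_W : Loc (X := W) (S := W) (fun s => Iic s) BW where
  openX := isOpen_Iic'
  cover x := ⟨x, le_refl x⟩
  openB := by
    intro n s y _
    apply Set.Finite.isOpen_biInter
    · exact (finite_Iic n).subset fun k hk => hk.1
    · intro k _
      apply fam_open s
      rw [en_range]; exact ⟨k, rfl⟩
  memB := by
    intro n s y _
    simp only [BW, mem_iInter]
    intro k hk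
    exact hk.2
  gamma := by
    intro s x hx O hO hxO
    obtain ⟨C, hC, hxC, hCO⟩ := fam_base hx hO hxO
    have hC' := hC
    rw [en_range] at hC'
    obtain ⟨k, rfl⟩ := hC'
    refine ⟨en s k, (fam_open s _ hC).mem_nhds hxC, k, fun m hm y hy _ => ?_⟩
    refine Subset.trans ?_ hCO
    exact biInter_subset_of_mem (show k ∈ {k | k ≤ m ∧ y ∈ en s k} from ⟨hm, hy⟩)

/-- quasimetrizable spaces -/
def QM (X : Type*) [TopologicalSpace X] : Prop :=
  ∃ d : X → X → ℝ, (∀ x y, 0 ≤ d x y) ∧ (∀ x, d x x = 0) ∧ (∀ x y z, d x z ≤ d x y + d y z) ∧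
    TopologicalSpace.IsTopologicalBasis {b : Set X | ∃ x, ∃ r : ℝ, 0 < r ∧ b = {y | d x y < r}}

theorem ball_nhds {X : Type*} [TopologicalSpace X] {d : X → X → ℝ} (h0 : ∀ x, d x x = 0)
    (hb : TopologicalSpace.IsTopologicalBasis
      {b : Set X | ∃ x, ∃ r : ℝ, 0 < r ∧ b = {y | d x y < r}}) (x : X) {ε : ℝ} (hε : 0 < ε) :
    {y | d x y < ε} ∈ 𝓝 x := by
  apply (hb.isOpen ⟨x, ε, hε, rfl⟩).mem_nhds
  show d x x < ε
  rw [h0]; exact hε

theorem nhds_ball {X : Type*} [TopologicalSpace X] {d : X → X → ℝ}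
    (h1 : ∀ x y z, d x z ≤ d x y + d y z)
    (hb : TopologicalSpace.IsTopologicalBasis
      {b : Set X | ∃ x, ∃ r : ℝ, 0 < r ∧ b = {y | d x y < r}}) {x : X} {O : Set X}
    (hO : O ∈ 𝓝 x) : ∃ ε : ℝ, 0 < ε ∧ {y | d x y < ε} ⊆ O := by
  obtain ⟨_, ⟨z, r, hr, rfl⟩, hx, hs⟩ := hb.mem_nhds_iff.1 hO
  have hx' : d z x < r := hx
  refine ⟨r - d z x, by linarith, fun y hy => hs ?_⟩
  have hy' : d x y < r - d z x := hy
  have := h1 z x y
  show d z y < r
  linarith

theorem not_QM_W : ¬ QM W := by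
  rintro ⟨d, hd0, hself, htri, hb⟩
  -- pressing down
  have key : ∀ n : ℕ, ∃ β : W, ∀ γ : W, ∃ α > γ, Ioc β α ⊆ {y | d α y < (1 / 2) ^ n} := by
    intro n
    by_contra hcon
    push Not at hcon
    choose g hg using hcon
    have step : ∀ β : W, ∃ β' : W, β < β' ∧ g β < β' := by
      intro β
      obtain ⟨β', h⟩ := exists_gt (max β (g β))
      exact ⟨β', lt_of_le_of_lt (le_max_left _ _) h, lt_of_le_of_lt (le_max_right _ _) h⟩
    choose s hs1 hs2 using step
    let u : ℕ → W := fun k => s^[k] (Classical.arbitrary W)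
    have hu1 : ∀ k, u (k + 1) = s (u k) := fun k => Function.iterate_succ_apply' _ _ _
    have hu : StrictMono u := strictMono_nat_of_lt_succ fun k => by rw [hu1]; exact hs1 _
    obtain ⟨l, hl1, hl2⟩ := exists_sup u hu
    have h1 : {y | d l y < (1 / 2) ^ n} ∈ 𝓝 l := ball_nhds hself hb l (by positivity)
    obtain ⟨c, hc, hc'⟩ := exists_Ioc_subset_of_mem_nhds h1 ⟨u 0, hl1 0⟩
    obtain ⟨k, hk⟩ := hl2 c hc
    refine hg (u k) l ?_ ((Ioc_subset_Ioc_left hk.le).trans hc')
    have := hs2 (u k)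
    rw [← hu1] at this
    exact lt_trans this (hl1 _)
  choose β hβ using key
  obtain ⟨b, hb'⟩ := bdd_of_countable (countable_range β)
  have key2 : ∀ (n : ℕ) (γ : W), ∃ α > γ, Ioc b α ⊆ {y | d α y < (1 / 2) ^ n} := by
    intro n γ
    obtain ⟨α, h1, h2⟩ := hβ n γ
    exact ⟨α, h1, (Ioc_subset_Ioc_left (hb' _ ⟨n, rfl⟩).le).trans h2⟩
  choose a ha1 ha2 using key2
  -- increasing sequence
  let u : ℕ → W := fun k => Nat.rec (a 0 b) (fun k x => a (k + 1) x) k
  have hu0 : u 0 = a 0 b := rfl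
  have hu1 : ∀ k, u (k + 1) = a (k + 1) (u k) := fun k => rfl
  have hu : StrictMono u := strictMono_nat_of_lt_succ fun k => by rw [hu1]; exact ha1 _ _
  have hu2 : ∀ k, Ioc b (u k) ⊆ {y | d (u k) y < (1 / 2) ^ k} := by
    intro k
    cases k with
    | zero => exact ha2 0 b
    | succ k => rw [hu1]; exact ha2 _ _
  have hbu : b < u 0 := ha1 0 b
  obtain ⟨l, hl1, hl2⟩ := exists_sup u hu
  -- the distance from the limit to `u 0`
  have h0 : d l (u 0) ≤ 0 := by
    apply le_of_forall_pos_le_add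
    intro ε hε
    have h1 : {y | d l y < ε / 2} ∈ 𝓝 l := ball_nhds hself hb l (half_pos hε)
    obtain ⟨c, hc, hc'⟩ := exists_Ioc_subset_of_mem_nhds h1 ⟨u 0, hl1 0⟩
    obtain ⟨k, hk⟩ := hl2 c hc
    obtain ⟨K, hK⟩ := exists_pow_lt_of_lt_one (half_pos hε) (show (1 / 2 : ℝ) < 1 by norm_num)
    set m := max k K with hm
    have e1 : d l (u m) < ε / 2 := by
      apply hc'
      exact ⟨lt_of_lt_of_le hk (hu.monotone (le_max_left _ _)), (hl1 m).le⟩
    have e2 : d (u m) (u 0) < (1 / 2) ^ m := hu2 m ⟨hbu, hu.monotone (Nat.zero_le _)⟩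
    have e3 : ((1 / 2 : ℝ)) ^ m ≤ (1 / 2) ^ K :=
      pow_le_pow_of_le_one (by norm_num) (by norm_num) (le_max_right _ _)
    have := htri l (u m) (u 0)
    linarith
  obtain ⟨ε, hε, h2⟩ := nhds_ball htri hb (isOpen_Ioi.mem_nhds (hl1 0))
  have h3 : u 0 ∈ Ioi (u 0) := h2 (show d l (u 0) < ε by linarith)
  exact lt_irrefl (u 0) (mem_Ioi.1 h3)

end Pool.Agent.Q307.MAn
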