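import Pool.Agent.Q307.MAn.Model

set_option autoImplicit false
set_option linter.all false

/-! The lifting property. -/

open Topology Filter Set
open scoped ENNReal

noncomputable section

namespace Pool.Agent.Q307.MAn

universe u

variable {X S : Type u} [TopologicalSpace X] {Xs : S → Set X} {B : ℕ → S → X → Set X}

theorem lift [T0Space X] (hL : Loc Xs B) {x0 : X} {s0 : S} (hs0 : x0 ∈ Xs s0) {A : Type u}
    [MetricSpace A] (a0 : A) (f : A → X) (hf : Continuous f) (hf0 : f a0 = x0) :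
    ∃ g : A → MM Xs B, Continuous g ∧ g a0 = ⟨x0, dl (s0, x0), good_dl hL hs0⟩ ∧
      ∀ a, (g a).x = f a := by
  classical
  -- locally finite cover
  obtain ⟨V, hVo, hVc, hVf, hVs⟩ := precise_refinement (fun s => f ⁻¹' Xs s)
    (fun s => (hL.openX s).preimage hf) (by
      rw [iUnion_eq_univ_iff]
      intro a
      exact hL.cover (f a))
  rw [iUnion_eq_univ_iff] at hVc
  -- the covers
  let W : ℕ → S × X → Set A := fun n t => {a | a ∈ V t.1 ∧ f a ∈ B n t.1 t.2 ∧ t.2 ∈ Xs t.1 ∧
    ∃ b ∈ V t.1, f b = t.2 ∧ dist a b < (1 / 2) ^ n}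
  have hWo : ∀ n t, IsOpen (W n t) := by
    intro n t
    by_cases ht : t.2 ∈ Xs t.1
    · have : W n t = V t.1 ∩ (f ⁻¹' (B n t.1 t.2) ∩
          ⋃ b ∈ {b | b ∈ V t.1 ∧ f b = t.2}, Metric.ball b ((1 / 2) ^ n)) := by
        ext a
        simp only [W, mem_setOf_eq, mem_inter_iff, mem_preimage, mem_iUnion, Metric.mem_ball]
        constructor
        · rintro ⟨h1, h2, _, b, hb, h3, h4⟩
          exact ⟨h1, h2, b, ⟨hb, h3⟩, h4⟩
        · rintro ⟨h1, h2, b, ⟨hb, h3⟩, h4⟩
          exact ⟨h1, h2, ht, b, hb, h3, h4⟩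
      rw [this]
      exact (hVo _).inter (((hL.openB n _ _ ht).preimage hf).inter
        (isOpen_biUnion fun b _ => Metric.isOpen_ball))
    · have : W n t = ∅ := by
        ext a
        simp only [W, mem_setOf_eq, mem_empty_iff_false, iff_false]
        rintro ⟨_, _, h, _⟩
        exact ht h
      rw [this]; exact isOpen_empty
  have hWc : ∀ n, (univ : Set A) ⊆ ⋃ t, W n t := by
    intro n a _
    obtain ⟨s, hs⟩ := hVc a
    rw [mem_iUnion]
    refine ⟨(s, f a), hs, hL.memB n s _ (hVs s hs), hVs s hs, a, hs, rfl, ?_⟩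
    rw [dist_self]; positivity
  have hbump : ∀ n, ∃ Λ : BumpCovering (S × X) A univ, Λ.IsSubordinate (W n) := fun n =>
    BumpCovering.exists_isSubordinate isClosed_univ (W n) (hWo n) (hWc n)
  choose Λ hΛ using hbump
  have hΛW : ∀ n t a, 0 < Λ n t a → a ∈ W n t := by
    intro n t a h
    exact hΛ n t (subset_tsupport _ (by rw [Function.mem_support]; exact h.ne'))
  have hΛ0 : ∀ n t a, 0 ≤ Λ n t a := fun n t a => (Λ n).nonneg t a
  have hΛ1 : ∀ n t a, Λ n t a ≤ 1 := fun n t a => (Λ n).le_one t a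
  have hΛne : ∀ n a, ∃ t, Λ n t a = 1 := by
    intro n a
    obtain ⟨t, ht⟩ := (Λ n).eventuallyEq_one' a (mem_univ a)
    exact ⟨t, ht.self_of_nhds⟩
  have hΛlf : ∀ n a, ∃ U ∈ 𝓝 a, {t | (Function.support (Λ n t) ∩ U).Nonempty}.Finite :=
    fun n a => (Λ n).locallyFinite' a
  -- the function near the base point
  have hr : ∀ n, ∃ r : ℝ, 0 < r ∧ r ≤ (1 / 2) ^ n ∧ ∀ a, dist a a0 < r → f a ∈ B n s0 x0 := by
    intro n
    have h1 : f ⁻¹' (B n s0 x0) ∈ 𝓝 a0 := by
      apply ((hL.openB n s0 x0 hs0).preimage hf).mem_nhds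
      show f a0 ∈ B n s0 x0
      rw [hf0]; exact hL.memB n s0 x0 hs0
    obtain ⟨r, hr, h2⟩ := Metric.mem_nhds_iff.1 h1
    refine ⟨min r ((1 / 2) ^ n), lt_min hr (by positivity), min_le_right _ _, fun a ha => ?_⟩
    exact h2 (Metric.mem_ball.2 (lt_of_lt_of_le ha (min_le_left _ _)))
  choose r hr0 hr1 hr2 using hr
  let τ : ℕ → A → ℝ := fun n a => max 0 (1 - dist a a0 / r n)
  have hτ0 : ∀ n a, 0 ≤ τ n a := fun n a => le_max_left _ _
  have hτ1 : ∀ n a, τ n a ≤ 1 := by
    intro n a
    apply max_le zero_le_one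
    have : 0 ≤ dist a a0 / r n := div_nonneg dist_nonneg (hr0 n).le
    linarith
  have hτa0 : ∀ n, τ n a0 = 1 := by
    intro n; simp [τ]
  have hτpos : ∀ n a, 0 < τ n a → dist a a0 < r n := by
    intro n a h
    rcases lt_max_iff.1 h with h | h
    · exact absurd h (lt_irrefl _)
    · have : dist a a0 / r n < 1 := by linarith
      rwa [div_lt_one (hr0 n)] at this
  have hτc : ∀ n, Continuous (τ n) := fun n =>
    continuous_const.max (continuous_const.sub ((continuous_id.dist continuous_const).div_const _))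
  -- the weights
  let L : ℕ → S × X → A → ℝ := fun n t a =>
    (1 - τ n a) * Λ n t a + τ n a * (if t = (s0, x0) then 1 else 0)
  have hL0 : ∀ n t a, 0 ≤ L n t a := by
    intro n t a
    have e1 := hτ0 n a
    have e2 : 0 ≤ 1 - τ n a := by have := hτ1 n a; linarith
    have e3 := hΛ0 n t a
    simp only [L]
    split_ifs <;> positivity
  have hL1 : ∀ n t a, L n t a ≤ 1 := by
    intro n t a
    have e1 := hτ0 n a
    have e2 : 0 ≤ 1 - τ n a := by have := hτ1 n a; linarith
    have e3 := hΛ1 n t a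
    have e4 : (1 - τ n a) * Λ n t a ≤ (1 - τ n a) * 1 := mul_le_mul_of_nonneg_left e3 e2
    simp only [L]
    split_ifs <;> linarith
  have hLpos : ∀ n t a, 0 < L n t a → 0 < Λ n t a ∨ (0 < τ n a ∧ t = (s0, x0)) := by
    intro n t a h
    by_contra hcon
    push Not at hcon
    have e1 : Λ n t a = 0 := le_antisymm hcon.1 (hΛ0 n t a)
    simp only [L, e1, mul_zero, zero_add] at h
    by_cases ht : t = (s0, x0)
    · rw [if_pos ht, mul_one] at h
      exact hcon.2 h ht
    · rw [if_neg ht, mul_zero] at h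
      exact lt_irrefl _ h
  have hLc : ∀ n t, Continuous (L n t) := by
    intro n t
    exact ((continuous_const.sub (hτc n)).mul (Λ n t).continuous).add
      ((hτc n).mul continuous_const)
  let Q : A → ℕ × (S × X) → ℝ := fun a i => (1 / 2) ^ i.1 * L i.1 i.2 a
  have hQpos : ∀ n t a, 0 < Q a (n, t) ↔ 0 < L n t a := by
    intro n t a
    simp only [Q]
    exact mul_pos_iff_of_pos_left (by positivity)
  have hgood : ∀ a, Good Xs B (f a) (Q a) := by
    intro a
    refine ⟨?_, ?_, ?_, ?_, ?_, ?_⟩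
    · intro i
      exact mul_nonneg (by positivity) (hL0 _ _ _)
    · intro n t
      simp only [Q]
      exact mul_le_of_le_one_right (by positivity) (hL1 _ _ _)
    · intro n
      obtain ⟨U, hU, hfin⟩ := hΛlf n a
      refine (hfin.union (finite_singleton (s0, x0))).subset ?_
      intro t ht
      rcases hLpos n t a ((hQpos n t a).1 ht) with h | h
      · left
        exact ⟨a, by rw [Function.mem_support]; exact h.ne', mem_of_mem_nhds hU⟩
      · right; exact h.2
    · intro n
      obtain ⟨t, ht⟩ := hΛne n a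
      rcases lt_or_ge (τ n a) 1 with h | h
      · refine ⟨t, (hQpos n t a).2 ?_⟩
        have e1 : 0 < (1 - τ n a) * Λ n t a := by
          rw [ht, mul_one]; linarith
        have e2 : 0 ≤ τ n a * (if t = (s0, x0) then (1 : ℝ) else 0) := by
          have := hτ0 n a
          split_ifs <;> positivity
        simp only [L]; linarith
      · refine ⟨(s0, x0), (hQpos n _ a).2 ?_⟩
        have e1 : 0 ≤ (1 - τ n a) * Λ n (s0, x0) a :=
          mul_nonneg (by have := hτ1 n a; linarith) (hΛ0 _ _ _)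
        show 0 < (1 - τ n a) * Λ n (s0, x0) a + τ n a * (if (s0, x0) = (s0, x0) then (1 : ℝ) else 0)
        rw [if_pos rfl, mul_one]
        linarith
    · intro n t ht
      rcases hLpos n t a ((hQpos n t a).1 ht) with h | ⟨h, rfl⟩
      · have := hΛW n t a h
        exact ⟨this.2.2.1, this.2.1⟩
      · exact ⟨hs0, hr2 n a (hτpos n a h)⟩
    · intro O hO haO
      -- finitely many s
      have hfin : {s | a ∈ V s}.Finite := hVf.point_finite a
      have h1 : ∀ s ∈ {s | a ∈ V s}, ∃ n0 : ℕ, ∀ n ≥ n0, ∀ b ∈ V s, dist a b < (1 / 2) ^ n →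
          B n s (f b) ⊆ O := by
        intro s hs
        obtain ⟨N, hN, n1, hn1⟩ := hL.gamma s (f a) (hVs s hs) O hO haO
        obtain ⟨ε, hε, h2⟩ := Metric.mem_nhds_iff.1 (hf.continuousAt (x := a) hN)
        obtain ⟨K, hK⟩ := exists_pow_lt_of_lt_one hε (show (1 / 2 : ℝ) < 1 by norm_num)
        refine ⟨max n1 K, fun n hn b hb hab => ?_⟩
        apply hn1 n (le_trans (le_max_left _ _) hn) (f b) _ (hVs s hb)
        apply h2
        rw [Metric.mem_ball, dist_comm]
        refine lt_trans hab (lt_of_le_of_lt ?_ hK)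
        exact pow_le_pow_of_le_one (by norm_num) (by norm_num) (le_trans (le_max_right _ _) hn)
      have h2 : ∃ n1 : ℕ, ∀ n ≥ n1, ∀ s ∈ {s | a ∈ V s}, ∀ b ∈ V s, dist a b < (1 / 2) ^ n →
          B n s (f b) ⊆ O := by
        have h3 : ∀ᶠ n in atTop, ∀ s ∈ {s | a ∈ V s}, ∀ b ∈ V s, dist a b < (1 / 2) ^ n →
            B n s (f b) ⊆ O := by
          rw [eventually_all_finite hfin]
          intro s hs
          obtain ⟨n0, hn0⟩ := h1 s hs
          exact eventually_atTop.2 ⟨n0, hn0⟩
        exact eventually_atTop.1 h3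
      obtain ⟨n1, hn1⟩ := h2
      have h3 : ∃ n2 : ℕ, ∀ n ≥ n2, 0 < τ n a → B n s0 x0 ⊆ O := by
        by_cases ha : a = a0
        · subst ha
          rw [hf0] at haO
          obtain ⟨N, hN, n2, hn2⟩ := hL.gamma s0 x0 hs0 O hO haO
          exact ⟨n2, fun n hn _ => hn2 n hn x0 (mem_of_mem_nhds hN) hs0⟩
        · have hd : 0 < dist a a0 := dist_pos.2 ha
          obtain ⟨K, hK⟩ := exists_pow_lt_of_lt_one hd (show (1 / 2 : ℝ) < 1 by norm_num)
          refine ⟨K, fun n hn h => ?_⟩
          exfalso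
          have e1 := hτpos n a h
          have e2 := hr1 n
          have e3 : ((1 / 2 : ℝ)) ^ n ≤ (1 / 2) ^ K :=
            pow_le_pow_of_le_one (by norm_num) (by norm_num) hn
          linarith
      obtain ⟨n2, hn2⟩ := h3
      refine ⟨max n1 n2, fun n hn t ht => ?_⟩
      rcases hLpos n t a ((hQpos n t a).1 ht) with h | ⟨h, rfl⟩
      · obtain ⟨g1, g2, g3, b, hb, g4, g5⟩ := hΛW n t a h
        rw [← g4]
        exact hn1 n (le_trans (le_max_left _ _) hn) t.1 g1 b hb g5
      · exact hn2 n (le_trans (le_max_right _ _) hn) h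
  refine ⟨fun a => ⟨f a, Q a, hgood a⟩, ?_, ?_, fun a => rfl⟩
  · rw [Metric.continuous_iff']
    intro a ε hε
    obtain ⟨K, hK⟩ := exists_pow_lt_of_lt_one (half_pos hε) (show (1 / 2 : ℝ) < 1 by norm_num)
    have h1 : ∀ n : ℕ, ∀ᶠ a' in 𝓝 a, ∀ t, |L n t a' - L n t a| ≤ ε / 2 := by
      intro n
      obtain ⟨U, hU, hfin⟩ := hΛlf n a
      have h2 : ∀ᶠ a' in 𝓝 a, ∀ t ∈ {t | (Function.support (Λ n t) ∩ U).Nonempty} ∪ {(s0, x0)},
          |L n t a' - L n t a| ≤ ε / 2 := by
        rw [eventually_all_finite (hfin.union (finite_singleton _))]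
        intro t _
        have h3 : Tendsto (fun a' => |L n t a' - L n t a|) (𝓝 a) (𝓝 |L n t a - L n t a|) :=
          (((hLc n t).sub continuous_const).abs).tendsto a
        rw [sub_self, abs_zero] at h3
        exact h3.eventually (ge_mem_nhds (half_pos hε))
      filter_upwards [h2, hU] with a' h3 ha' t
      by_cases ht : t ∈ {t | (Function.support (Λ n t) ∩ U).Nonempty} ∪ {(s0, x0)}
      · exact h3 t ht
      · simp only [mem_union, mem_setOf_eq, mem_singleton_iff, not_or] at ht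
        have e1 : ∀ c ∈ U, Λ n t c = 0 := by
          intro c hc
          by_contra hne
          exact ht.1 ⟨c, by rw [Function.mem_support]; exact hne, hc⟩
        simp only [L, e1 a' ha', e1 a (mem_of_mem_nhds hU), if_neg ht.2, mul_zero, add_zero,
          sub_self, abs_zero]
        exact (half_pos hε).le
    have h4 : ∀ᶠ a' in 𝓝 a, ∀ n ∈ Finset.range K, ∀ t, |L n t a' - L n t a| ≤ ε / 2 := by
      rw [Filter.eventually_all_finset]
      intro n _
      exact h1 n
    filter_upwards [h4] with a' ha'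
    refine lt_of_le_of_lt (dist_le (C := ε / 2) (half_pos hε).le ?_) (half_lt_self hε)
    rintro ⟨n, t⟩
    show |(1 / 2 : ℝ) ^ n * L n t a' - (1 / 2) ^ n * L n t a| ≤ ε / 2
    by_cases hn : n < K
    · rw [← mul_sub, abs_mul, abs_of_nonneg (by positivity)]
      have e1 := ha' n (Finset.mem_range.2 hn) t
      have e2 : (1 / 2 : ℝ) ^ n ≤ 1 := pow_le_one₀ (by norm_num) (by norm_num)
      calc (1 / 2 : ℝ) ^ n * |L n t a' - L n t a| ≤ 1 * |L n t a' - L n t a| :=
            mul_le_mul_of_nonneg_right e2 (abs_nonneg _)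
        _ ≤ ε / 2 := by rw [one_mul]; exact e1
    · have e1 : ((1 / 2 : ℝ)) ^ n ≤ (1 / 2) ^ K :=
        pow_le_pow_of_le_one (by norm_num) (by norm_num) (not_lt.1 hn)
      have e2 : ∀ c, 0 ≤ (1 / 2 : ℝ) ^ n * L n t c := fun c => mul_nonneg (by positivity) (hL0 _ _ _)
      have e3 : ∀ c, (1 / 2 : ℝ) ^ n * L n t c ≤ (1 / 2) ^ n := fun c =>
        mul_le_of_le_one_right (by positivity) (hL1 _ _ _)
      rw [abs_le]
      have := e2 a; have := e2 a'; have := e3 a; have := e3 a'
      constructor <;> linarith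
  · apply MM.inter
    funext i
    show (1 / 2 : ℝ) ^ i.1 * L i.1 i.2 a0 = dl (s0, x0) i
    simp only [L, hτa0, sub_self, zero_mul, zero_add, one_mul, dl]
    split_ifs <;> simp

end Pool.Agent.Q307.MAn
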