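import Mathlib

set_option autoImplicit false
set_option linter.all false

/-! Metric analogs of locally quasimetrizable spaces. -/

open Topology Filter Set
open scoped ENNReal

noncomputable section

namespace Pool.Agent.Q307.MAn

universe u

/-- a local gamma-structure -/
structure Loc {X S : Type u} [TopologicalSpace X] (Xs : S → Set X) (B : ℕ → S → X → Set X) :
    Prop where
  openX : ∀ s, IsOpen (Xs s)
  cover : ∀ x, ∃ s, x ∈ Xs s
  openB : ∀ n s y, y ∈ Xs s → IsOpen (B n s y)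
  memB : ∀ n s y, y ∈ Xs s → y ∈ B n s y
  gamma : ∀ s x, x ∈ Xs s → ∀ O, IsOpen O → x ∈ O → ∃ N ∈ 𝓝 x, ∃ n, ∀ m ≥ n, ∀ y ∈ N,
    y ∈ Xs s → B m s y ⊆ O

variable {X S : Type u} [TopologicalSpace X]

/-- the conditions on the weights -/
structure Good (Xs : S → Set X) (B : ℕ → S → X → Set X) (x : X) (Q : ℕ × (S × X) → ℝ) :
    Prop where
  nonneg : ∀ i, 0 ≤ Q i
  le : ∀ n t, Q (n, t) ≤ (1 / 2) ^ n
  fin : ∀ n, {t | 0 < Q (n, t)}.Finite
  ne : ∀ n, ∃ t, 0 < Q (n, t)
  mem : ∀ n t, 0 < Q (n, t) → t.2 ∈ Xs t.1 ∧ x ∈ B n t.1 t.2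
  conv : ∀ O, IsOpen O → x ∈ O → ∃ n0, ∀ n ≥ n0, ∀ t, 0 < Q (n, t) → B n t.1 t.2 ⊆ O

/-- the points of the metric space -/
structure MM (Xs : S → Set X) (B : ℕ → S → X → Set X) : Type u where
  x : X
  Q : ℕ × (S × X) → ℝ
  good : Good Xs B x Q

variable {Xs : S → Set X} {B : ℕ → S → X → Set X}

theorem Good.le_one {x : X} {Q : ℕ × (S × X) → ℝ} (h : Good Xs B x Q) (i : ℕ × (S × X)) :
    Q i ≤ 1 := by
  obtain ⟨n, t⟩ := i
  exact (h.le n t).trans (pow_le_one₀ (by norm_num) (by norm_num))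

/-- the embedding into a Banach space -/
def toE (m : MM Xs B) : lp (fun _ : ℕ × (S × X) => ℝ) ∞ :=
  ⟨m.Q, memℓp_infty ⟨1, by
    rintro _ ⟨i, rfl⟩
    simp only [Real.norm_eq_abs]
    rw [abs_of_nonneg (m.good.nonneg i)]
    exact m.good.le_one i⟩⟩

theorem toE_apply (m : MM Xs B) (i : ℕ × (S × X)) : (toE m : ∀ _, ℝ) i = m.Q i := rfl

theorem MM.inter [T0Space X] (m m' : MM Xs B) (h : m.Q = m'.Q) : m = m' := by
  have key : ∀ (m m' : MM Xs B), m.Q = m'.Q → ∀ O, IsOpen O → m.x ∈ O → m'.x ∈ O := by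
    intro m m' h O hO hx
    obtain ⟨n, hn⟩ := m.good.conv O hO hx
    obtain ⟨t, ht⟩ := m.good.ne n
    have h1 := hn n le_rfl t ht
    rw [h] at ht
    exact h1 (m'.good.mem n t ht).2
  have hx : m.x = m'.x := by
    apply Inseparable.eq
    rw [inseparable_iff_forall_isOpen]
    intro O hO
    exact ⟨key m m' h O hO, key m' m h.symm O hO⟩
  cases m; cases m'
  simp only at hx h
  subst hx h
  rfl

theorem toE_injective [T0Space X] : Function.Injective (toE : MM Xs B → _) := by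
  intro m m' h
  apply MM.inter
  funext i
  have := congrArg (fun e : lp (fun _ : ℕ × (S × X) => ℝ) ∞ => (e : ∀ _, ℝ) i) h
  exact this

instance [T0Space X] : MetricSpace (MM Xs B) := MetricSpace.induced toE toE_injective inferInstance

theorem dist_def [T0Space X] (m m' : MM Xs B) : dist m m' = ‖toE m - toE m'‖ := by
  rw [← dist_eq_norm]; rfl

theorem isometry_toE [T0Space X] : Isometry (toE : MM Xs B → _) := Isometry.of_dist_eq fun _ _ => rfl

theorem abs_le_dist [T0Space X] (m m' : MM Xs B) (i : ℕ × (S × X)) : |m.Q i - m'.Q i| ≤ dist m m' := by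
  rw [dist_def]
  have := lp.norm_apply_le_norm (p := ∞) (by simp) (toE m - toE m') i
  rw [lp.coeFn_sub, Pi.sub_apply, Real.norm_eq_abs] at this
  exact this

theorem dist_le [T0Space X] {m m' : MM Xs B} {C : ℝ} (hC : 0 ≤ C) (h : ∀ i, |m.Q i - m'.Q i| ≤ C) :
    dist m m' ≤ C := by
  rw [dist_def]
  apply lp.norm_le_of_forall_le hC
  intro i
  rw [lp.coeFn_sub, Pi.sub_apply, Real.norm_eq_abs]
  exact h i

theorem continuous_x [T0Space X] (hL : Loc Xs B) : Continuous (MM.x : MM Xs B → X) := by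
  rw [continuous_iff_continuousAt]
  intro m
  rw [ContinuousAt, tendsto_nhds]
  intro O hO hx
  obtain ⟨n, hn⟩ := m.good.conv O hO hx
  obtain ⟨t, ht⟩ := m.good.ne n
  rw [Metric.mem_nhds_iff]
  refine ⟨m.Q (n, t), ht, ?_⟩
  intro m' hm'
  rw [Metric.mem_ball] at hm'
  have h1 := abs_le_dist m' m (n, t)
  have h2 : 0 < m'.Q (n, t) := by
    have := (abs_le.1 h1).1
    linarith
  exact hn n le_rfl t ht (m'.good.mem n t h2).2

open Classical in
/-- concentrated weights -/
def dl (t0 : S × X) : ℕ × (S × X) → ℝ := fun i => if i.2 = t0 then (1 / 2) ^ i.1 else 0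

theorem dl_pos {t0 t : S × X} {n : ℕ} : 0 < dl t0 (n, t) ↔ t = t0 := by
  unfold dl
  by_cases h : t = t0
  · simp [h]
  · simp [h]

theorem dl_nonneg (t0 : S × X) (i : ℕ × (S × X)) : 0 ≤ dl t0 i := by
  unfold dl; split_ifs
  · positivity
  · exact le_refl _

theorem dl_le (t0 t : S × X) (n : ℕ) : dl t0 (n, t) ≤ (1 / 2) ^ n := by
  unfold dl; split_ifs
  · exact le_refl _
  · positivity

theorem good_mix (hL : Loc Xs B) {x : X} {s : S} (hx : x ∈ Xs s) {Q : ℕ × (S × X) → ℝ} {K : ℕ}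
    (h1 : ∀ i, 0 ≤ Q i) (h2 : ∀ n t, Q (n, t) ≤ (1 / 2) ^ n) (h3 : ∀ n, {t | 0 < Q (n, t)}.Finite)
    (h4 : ∀ n, ∃ t, 0 < Q (n, t))
    (h5 : ∀ n < K, ∀ t, 0 < Q (n, t) → t.2 ∈ Xs t.1 ∧ x ∈ B n t.1 t.2)
    (h6 : ∀ n ≥ K, ∀ t, 0 < Q (n, t) → t = (s, x)) : Good Xs B x Q where
  nonneg := h1
  le := h2
  fin := h3
  ne := h4
  mem := by
    intro n t ht
    by_cases hn : n < K
    · exact h5 n hn t ht
    · have := h6 n (not_lt.1 hn) t ht
      subst this
      exact ⟨hx, hL.memB n s x hx⟩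
  conv := by
    intro O hO hxO
    obtain ⟨N, hN, n, hn⟩ := hL.gamma s x hx O hO hxO
    refine ⟨max n K, fun m hm t ht => ?_⟩
    have := h6 m (le_trans (le_max_right _ _) hm) t ht
    subst this
    exact hn m (le_trans (le_max_left _ _) hm) x (mem_of_mem_nhds hN) hx

theorem good_dl (hL : Loc Xs B) {x : X} {s : S} (hx : x ∈ Xs s) : Good Xs B x (dl (s, x)) :=
  good_mix hL hx (K := 0) (dl_nonneg _) (fun n t => dl_le _ _ _)
    (fun n => by
      have : {t | 0 < dl (s, x) (n, t)} = {(s, x)} := by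
        ext t; exact dl_pos
      rw [this]; exact finite_singleton _)
    (fun n => ⟨(s, x), dl_pos.2 rfl⟩) (fun n hn => absurd hn (Nat.not_lt_zero _))
    (fun n _ t ht => dl_pos.1 ht)

theorem isOpenMap_x [T0Space X] (hL : Loc Xs B) : IsOpenMap (MM.x : MM Xs B → X) := by
  rw [isOpenMap_iff_nhds_le]
  intro m U hU
  rw [mem_map, Metric.mem_nhds_iff] at hU
  obtain ⟨ε, hε, hU⟩ := hU
  obtain ⟨K, hK⟩ := exists_pow_lt_of_lt_one hε (show (1 / 2 : ℝ) < 1 by norm_num)
  have hV : IsOpen (⋂ n ∈ Finset.range K, ⋂ t ∈ {t | 0 < m.Q (n, t)}, B n t.1 t.2) := by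
    apply isOpen_biInter_finset
    intro n _
    apply (m.good.fin n).isOpen_biInter
    intro t ht
    exact hL.openB n _ _ (m.good.mem n t ht).1
  have hmV : m.x ∈ (⋂ n ∈ Finset.range K, ⋂ t ∈ {t | 0 < m.Q (n, t)}, B n t.1 t.2) := by
    simp only [mem_iInter]
    intro n _ t ht
    exact (m.good.mem n t ht).2
  filter_upwards [hV.mem_nhds hmV] with x' hx'
  simp only [mem_iInter] at hx'
  obtain ⟨s, hs⟩ := hL.cover x'
  let Q' : ℕ × (S × X) → ℝ := fun i => if i.1 < K then m.Q i else dl (s, x') i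
  have hg : Good Xs B x' Q' := by
    refine good_mix hL hs (K := K) ?_ ?_ ?_ ?_ ?_ ?_
    · intro i
      simp only [Q']; split_ifs
      · exact m.good.nonneg i
      · exact dl_nonneg _ _
    · intro n t
      simp only [Q']; split_ifs
      · exact m.good.le n t
      · exact dl_le _ _ _
    · intro n
      simp only [Q']; split_ifs
      · exact m.good.fin n
      · exact (good_dl hL hs).fin n
    · intro n
      simp only [Q']; split_ifs
      · exact m.good.ne n
      · exact (good_dl hL hs).ne n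
    · intro n hn t ht
      simp only [Q', if_pos hn] at ht
      exact ⟨(m.good.mem n t ht).1, hx' n (Finset.mem_range.2 hn) t ht⟩
    · intro n hn t ht
      simp only [Q', if_neg (not_lt.2 hn)] at ht
      exact dl_pos.1 ht
  have hd : dist (⟨x', Q', hg⟩ : MM Xs B) m ≤ (1 / 2) ^ K := by
    apply dist_le (by positivity)
    rintro ⟨n, t⟩
    simp only [Q']
    by_cases hn : n < K
    · rw [if_pos hn, sub_self, abs_zero]; positivity
    · rw [if_neg hn, abs_le]
      have e1 := dl_nonneg (s, x') (n, t)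
      have e2 := dl_le (s, x') t n
      have e3 := m.good.nonneg (n, t)
      have e4 := m.good.le n t
      have e5 : ((1 / 2 : ℝ)) ^ n ≤ (1 / 2) ^ K :=
        pow_le_pow_of_le_one (by norm_num) (by norm_num) (not_lt.1 hn)
      constructor <;> linarith
  exact hU (Metric.mem_ball.2 (lt_of_le_of_lt hd hK))

theorem surjective_x [T0Space X] (hL : Loc Xs B) : Function.Surjective (MM.x : MM Xs B → X) := by
  intro x
  obtain ⟨s, hs⟩ := hL.cover x
  exact ⟨⟨x, dl (s, x), good_dl hL hs⟩, rfl⟩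

/-- convexity of the fibres -/
theorem good_conv {x : X} {Q R : ℕ × (S × X) → ℝ} (hQ : Good Xs B x Q) (hR : Good Xs B x R)
    {t : ℝ} (ht : t ∈ unitInterval) : Good Xs B x (fun i => (1 - t) * Q i + t * R i) := by
  have ht0 : 0 ≤ t := ht.1
  have ht1 : 0 ≤ 1 - t := by have := ht.2; linarith
  have hpos : ∀ i, 0 < (1 - t) * Q i + t * R i → 0 < Q i ∨ 0 < R i := by
    intro i h
    by_contra hcon
    push Not at hcon
    have e1 : Q i = 0 := le_antisymm hcon.1 (hQ.nonneg i)
    have e2 : R i = 0 := le_antisymm hcon.2 (hR.nonneg i)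
    rw [e1, e2] at h
    simp at h
  refine ⟨?_, ?_, ?_, ?_, ?_, ?_⟩
  · intro i
    have := hQ.nonneg i
    have := hR.nonneg i
    positivity
  · intro n s
    have e1 := hQ.le n s
    have e2 := hR.le n s
    calc (1 - t) * Q (n, s) + t * R (n, s) ≤ (1 - t) * (1 / 2) ^ n + t * (1 / 2) ^ n :=
          add_le_add (mul_le_mul_of_nonneg_left e1 ht1) (mul_le_mul_of_nonneg_left e2 ht0)
      _ = (1 / 2) ^ n := by ring
  · intro n
    refine ((hQ.fin n).union (hR.fin n)).subset ?_
    intro s hs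
    exact hpos (n, s) hs
  · intro n
    obtain ⟨s1, h1⟩ := hQ.ne n
    obtain ⟨s2, h2⟩ := hR.ne n
    rcases lt_or_ge t 1 with h | h
    · refine ⟨s1, ?_⟩
      have e1 : 0 < (1 - t) * Q (n, s1) := mul_pos (by linarith) h1
      have e2 : 0 ≤ t * R (n, s1) := mul_nonneg ht0 (hR.nonneg _)
      linarith
    · refine ⟨s2, ?_⟩
      have e1 : 0 < t * R (n, s2) := mul_pos (by linarith) h2
      have e2 : 0 ≤ (1 - t) * Q (n, s2) := mul_nonneg ht1 (hQ.nonneg _)
      linarith
  · intro n s hs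
    rcases hpos _ hs with h | h
    · exact hQ.mem n s h
    · exact hR.mem n s h
  · intro O hO hx
    obtain ⟨n1, h1⟩ := hQ.conv O hO hx
    obtain ⟨n2, h2⟩ := hR.conv O hO hx
    refine ⟨max n1 n2, fun n hn s hs => ?_⟩
    rcases hpos _ hs with h | h
    · exact h1 n (le_trans (le_max_left _ _) hn) s h
    · exact h2 n (le_trans (le_max_right _ _) hn) s h

theorem homotopy [T0Space X] {A : Type u} [TopologicalSpace A] {f g : A → MM Xs B}
    (hf : Continuous f) (hg : Continuous g) (h : ∀ a, (f a).x = (g a).x) :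
    ∃ F : A × unitInterval → MM Xs B, Continuous F ∧ (∀ a, F (a, 0) = f a) ∧
      (∀ a, F (a, 1) = g a) ∧ (∀ a, f a = g a → ∀ t, F (a, t) = f a) ∧
      ∀ a t, (F (a, t)).x = (f a).x := by
  refine ⟨fun p => ⟨(f p.1).x, fun i => (1 - (p.2 : ℝ)) * (f p.1).Q i + (p.2 : ℝ) * (g p.1).Q i,
    good_conv (f p.1).good (by rw [h p.1]; exact (g p.1).good) p.2.2⟩, ?_, ?_, ?_, ?_, ?_⟩
  · rw [isometry_toE.isEmbedding.isInducing.continuous_iff]
    have h1 : Continuous (fun p : A × unitInterval =>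
        (1 - (p.2 : ℝ)) • toE (f p.1) + (p.2 : ℝ) • toE (g p.1)) := by
      have e1 : Continuous (fun p : A × unitInterval => toE (f p.1)) :=
        isometry_toE.continuous.comp (hf.comp continuous_fst)
      have e2 : Continuous (fun p : A × unitInterval => toE (g p.1)) :=
        isometry_toE.continuous.comp (hg.comp continuous_fst)
      have e3 : Continuous (fun p : A × unitInterval => (p.2 : ℝ)) :=
        continuous_subtype_val.comp continuous_snd
      exact ((continuous_const.sub e3).smul e1).add (e3.smul e2)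
    refine h1.congr ?_
    intro p
    apply Subtype.ext
    funext i
    simp [toE]
  · intro a
    apply MM.inter
    funext i; simp
  · intro a
    apply MM.inter
    funext i; simp
  · intro a ha t
    apply MM.inter
    funext i
    simp only [← ha]
    ring
  · intro a t; rfl

end Pool.Agent.Q307.MAn
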